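import Mathlib
import Pool.Agent.U529.BL.Fam4

/-!
# The prime factors of `(2 q r)² + l²` and `((2 r + 1) q)² + l²` for all but `N ^ μ` of the `l ≤ N`

Family A: the `m ≤ N` of the form `2 q r`, `q` prime, `r > 1`, for odd `l`; family B: the `m ≤ N` of the form
`(2 r + 1) q`, `q` an odd prime, `r ≥ 1`, for even `l` (the families of the question are `l = 1` and `l = 2`). Let
`0 < μ < 1`. For all but `N ^ μ` of the `l ≤ N`

* the numbers of the prime factors of `m² + l²`, `m` in the family, in disjoint intervals `[N ^ α_i, N ^ β_i)` with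
  `∑ β_i < 1 + μ` have the expected joint law,
* the number of the `m` in the family for which `m² + l²` has a prime factor at least `N ^ θ`, `1 ≤ θ < 1 + μ`, is between
  `(log ((1 + μ) / θ) / 2 - ε) N` and `(log ((1 + μ) / θ) / 2 + (1 - μ) / (1 + μ) + ε) N`,
* a positive proportion of the `m² + l²`, `m` in the family, has all prime factors at most `N ^ (1 - μ + ε)`.

Proof. The `m` with `m + l` odd and `m` not in the family are `2 h` or `h` with `h = 1` or `h` prime, hence `o(N)` of the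
`m ≤ N`; the condition that `m + l` is odd is `2 ∤ m² + l²`, and for all but `N ^ μ` of the `l ≤ N` the values `m² + l²`,
`m ≤ N`, have level of distribution `N ^ (1 + μ - ε)` (`Pool.Agent.U529.FD.few`, from the large sieve for the roots of
`ν² ≡ -1`, `Pool.Agent.N7.GN`, starting files, applied to the indicator function of the set of the exceptional `l`);
see `Pool/Agent/U529/BL`.
-/

set_option autoImplicit false

namespace Pool.Agent.Results.MP_4b1228_nt.PrimeFactorsInBothFamilies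

open Finset Filter Topology

open Classical in
/-- the `m ≤ N` of the form `2 q r`, `q` prime, `r > 1` -/
noncomputable def familyA (N : ℕ) : Finset ℕ :=
  (Icc 1 N).filter (fun m => ∃ q r : ℕ, q.Prime ∧ 1 < r ∧ m = 2 * q * r)

open Classical in
/-- the `m ≤ N` of the form `(2 r + 1) q`, `q` an odd prime, `r ≥ 1` -/
noncomputable def familyB (N : ℕ) : Finset ℕ :=
  (Icc 1 N).filter (fun m => ∃ q r : ℕ, q.Prime ∧ q ≠ 2 ∧ 1 ≤ r ∧ m = (2 * r + 1) * q)

open Classical in
/-- family A for odd `l`, family B for even `l` -/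
noncomputable def family (l N : ℕ) : Finset ℕ := if l % 2 = 1 then familyA N else familyB N

open Classical in
/-- the number of the prime factors `p` of `x` with `z ≤ p < w` -/
noncomputable def primeFactorsIn (z w : ℝ) (x : ℕ) : ℕ := (x.primeFactors.filter (fun p : ℕ => z ≤ p ∧ (p : ℝ) < w)).card

open Classical in
/-- the number of the `m ≤ N` in the family for which `m² + l²` has a prime factor at least `z` -/
noncomputable def withLargePrimeFactor (l N : ℕ) (z : ℝ) : ℕ :=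
  ((family l N).filter (fun m : ℕ => ∃ p : ℕ, p.Prime ∧ p ∣ m ^ 2 + l ^ 2 ∧ z ≤ p)).card

open Classical in
/-- the number of the `m ≤ N` in the family for which all prime factors of `m² + l²` are at most `z` -/
noncomputable def smoothValues (l N : ℕ) (z : ℝ) : ℕ :=
  ((family l N).filter (fun m : ℕ => ∀ p : ℕ, p.Prime → p ∣ m ^ 2 + l ^ 2 → (p : ℝ) ≤ z)).card

theorem fam_eq (l N : ℕ) : Pool.Agent.U529.BL.FL N l = family l N := rfl

theorem sum_eq (a b : ℝ) (n l m : ℕ) (hn : 2 ≤ n) (hb : b ≤ 2) (hl : 1 ≤ l) :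
    ∑ p ∈ Pool.Agent.U529.BL.Pn n a b, Pool.Agent.U529.BL.dI (m ^ 2 + l ^ 2) p =
      (primeFactorsIn ((n : ℝ) ^ a) ((n : ℝ) ^ b) (m ^ 2 + l ^ 2) : ℝ) := by
  classical
  unfold Pool.Agent.U529.BL.dI primeFactorsIn
  rw [sum_boole]
  congr 2
  ext p
  rw [mem_filter, mem_filter, Pool.Agent.U529.BL.mem_Pn n a b hn hb, Nat.mem_primeFactors]
  have h0 : m ^ 2 + l ^ 2 ≠ 0 := by positivity
  tauto

open Classical in
theorem result (μ ε : ℝ) (hμ0 : 0 < μ) (hμ1 : μ < 1) (hε : 0 < ε) :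
    -- the joint law
    (∀ (k : ℕ) (α β : Fin k → ℝ), (∀ i, 0 < α i) → (∀ i, α i < β i) → (∀ i j, i ≠ j → β i ≤ α j ∨ β j ≤ α i) →
      ∑ i, β i < 1 + μ → ∀ᶠ N : ℕ in atTop, (((Icc 1 N).filter (fun l : ℕ =>
        ε * N < |∑ m ∈ family l N, (∏ i, (primeFactorsIn ((N : ℝ) ^ (α i)) ((N : ℝ) ^ (β i)) (m ^ 2 + l ^ 2) : ℝ)) -
          N / 2 * ∏ i, Real.log (β i / α i)|)).card : ℝ) ≤ (N : ℝ) ^ μ) ∧
    -- large prime factors
    (∀ θ : ℝ, 1 ≤ θ → θ < 1 + μ → ∀ᶠ N : ℕ in atTop, (((Icc 1 N).filter (fun l : ℕ =>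
      (withLargePrimeFactor l N ((N : ℝ) ^ θ) : ℝ) < (Real.log ((1 + μ) / θ) / 2 - ε) * N ∨
        (Real.log ((1 + μ) / θ) / 2 + (1 - μ) / (1 + μ) + ε) * N <
          (withLargePrimeFactor l N ((N : ℝ) ^ θ) : ℝ))).card : ℝ) ≤ (N : ℝ) ^ μ) ∧
    -- smooth values
    (∃ c : ℝ, 0 < c ∧ ∀ᶠ N : ℕ in atTop, (((Icc 1 N).filter (fun l : ℕ =>
      (smoothValues l N ((N : ℝ) ^ (1 - μ + ε)) : ℝ) < c * N)).card : ℝ) ≤ (N : ℝ) ^ μ) := by
  refine ⟨?_, ?_, ?_⟩
  · intro k α β hα hαβ hd hs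
    have hβ0 : ∀ i, 0 < β i := fun i => (hα i).trans (hαβ i)
    have hβ2 : ∀ i, β i ≤ 2 := by
      intro i
      have := single_le_sum (fun j _ => (hβ0 j).le) (mem_univ i)
      linarith
    have F := Pool.Agent.U529.BL.lawL k α β μ ε hμ0 hμ1 hε hα (fun i => (hαβ i).le) hd hs
    unfold Pool.Agent.U529.BL.FE at F
    filter_upwards [F, eventually_ge_atTop 2] with N hN hN2
    refine le_trans (le_of_eq ?_) hN
    congr 2
    apply filter_congr
    intro l hl
    rw [mem_Icc] at hl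
    have h : ∑ m ∈ family l N, (∏ i, (primeFactorsIn ((N : ℝ) ^ (α i)) ((N : ℝ) ^ (β i)) (m ^ 2 + l ^ 2) : ℝ)) =
        Pool.Agent.U529.BL.TL α β N l := by
      unfold Pool.Agent.U529.BL.TL
      rw [fam_eq]
      apply sum_congr rfl
      intro m _
      apply prod_congr rfl
      intro i _
      rw [sum_eq (α i) (β i) N l m hN2 (hβ2 i) hl.1]
    rw [h]
  · intro θ hθ1 hθ2
    have F := Pool.Agent.U529.BL.lpfL μ θ ε hμ0 hμ1 hθ1 hθ2 hε
    unfold Pool.Agent.U529.BL.FE at F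
    filter_upwards [F] with N hN
    convert hN <;> rfl
  · obtain ⟨c, hc, F⟩ := Pool.Agent.U529.BL.smoothL μ ε hμ0 hμ1 hε
    refine ⟨c, hc, ?_⟩
    unfold Pool.Agent.U529.BL.FE at F
    filter_upwards [F] with N hN
    exact hN

end Pool.Agent.Results.MP_4b1228_nt.PrimeFactorsInBothFamilies
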