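import Pool.Agent.U163.SU.Uni

/-!
# The Ankeny–Chowla–Hasse and Lang families: strings of consecutive primes `q`, uniformly in the multipliers

The question is about the primes `(2 n q)² + 1` (`q` prime, `n > 1`) and `((2 n + 1) q)² + 4` (`q` prime, `n ≥ 1`).
We consider all the families `(b q)² + c²` with coprime `b, c ≥ 1` and `b + c` odd; `b = 2 n`, `c = 1` and
`b = 2 n + 1`, `c = 2` are the families of the question. Uniformly for ALL such `b, c ≤ N ^ A`, for instance for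
all the multipliers `2 n` and `2 n + 1` up to `N ^ A`, the numbers `(b q)² + c²` are almost primes (a bounded number
of prime factors, all larger than a power of `N`) for all primes `q` in many strings of consecutive primes: a
positive proportion of the patterns `H` of `m` elements of any given large finite set are patterns of consecutive
primes `x + h`, `h ∈ H`, of this kind, each for at least `N / (log N) ^ B` of the `x` in `(N, 2 N]`.

The starting file `ThinFamilies` has the families `(2 q n)² + l²` and `((2 n + 1) q)² + (2 l)²` for almost all `l`, and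
`SquarefreeResidues` is about the parity of the number of prime factors.

Proof. The theorem `R498.MP.stringsUR` of the starting library (Maynard-Tao theorem for strings of consecutive
primes with almost prime polynomial values, uniformly in the polynomial; it is used by starting hand-ins only for
Goldbach's problem) is applied to `b² X² + c²`; the proportion of the patterns follows by double counting
(`Helper32K9.Str`).
-/

set_option autoImplicit false

namespace Pool.Agent.Results.MP_4b1228_nt.StringsOfPrimes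

open Finset Filter Polynomial

/-- `n` has at most `r` prime factors, counted with multiplicity, all of them at least `w`. -/
def AlmostPrime (r : ℕ) (w : ℝ) (n : ℕ) : Prop :=
  n.primeFactorsList.length ≤ r ∧ ∀ q : ℕ, q.Prime → q ∣ n → w ≤ q

/-- The integers `x` with `N < x`, `x + max H ≤ 2 N`, such that the primes in the interval `[x, x + max H]` are
exactly the numbers `x + h`, `h ∈ H`, all of them are `≡ a` modulo `k`, and for all of them the number
`(b (x + h))² + c²` has at most `r` prime factors, all of them at least `N ^ δ`. -/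
def places (b c N k a r : ℕ) (δ : ℝ) (H : Finset ℕ) : Set ℕ :=
  {x | N < x ∧ x + H.sup id ≤ 2 * N ∧ (∀ y ≤ H.sup id, (x + y).Prime ↔ y ∈ H) ∧
    ∀ h ∈ H, x + h ≡ a [MOD k] ∧ AlmostPrime r ((N : ℝ) ^ δ) ((b * (x + h)) ^ 2 + c ^ 2)}

/-- the polynomial -/
noncomputable def fam (b c : ℕ) : ℤ[X] := C ((b : ℤ) ^ 2) * X ^ 2 + C ((c : ℤ) ^ 2)

theorem fam_eval (b c : ℕ) (x : ℤ) : (fam b c).eval x = (b * x) ^ 2 + c ^ 2 := by
  unfold fam
  simp
  ring

theorem fam_deg (b c : ℕ) : (fam b c).natDegree ≤ 2 := by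
  unfold fam
  refine (natDegree_add_le _ _).trans (max_le (natDegree_C_mul_X_pow_le _ _) ?_)
  rw [natDegree_C]
  omega

theorem fam_adm (b c : ℕ) (hbc : b.Coprime c) (hodd : Odd (b + c)) (p : ℕ) (hp : p.Prime) :
    ∃ n : ℤ, ¬ (p : ℤ) ∣ n ∧ ¬ (p : ℤ) ∣ (fam b c).eval n := by
  have hpZ : Prime (p : ℤ) := Nat.prime_iff_prime_int.1 hp
  have h1 : ¬ (p : ℤ) ∣ 1 := fun h => hp.one_lt.ne' (Nat.dvd_one.1 (by exact_mod_cast h))
  by_cases hp2 : p = 2
  · subst hp2
    refine ⟨1, h1, ?_⟩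
    rw [fam_eval]
    obtain ⟨k, hk⟩ := hodd
    have hk' : (b : ℤ) = 2 * k + 1 - c := by
      have : (b : ℤ) + c = 2 * k + 1 := by exact_mod_cast hk
      linarith
    rw [hk']
    rintro ⟨u, hu⟩
    have h2 : (2 : ℤ) ∣ 1 := by
      refine ⟨u - (2 * k ^ 2 + 2 * k - 2 * k * c - c + c ^ 2), ?_⟩
      push_cast at hu
      linarith
    omega
  have h2 : ¬ (p : ℤ) ∣ 2 := by
    intro h
    have : p ∣ 2 := by exact_mod_cast h
    exact hp2 ((Nat.prime_dvd_prime_iff_eq hp Nat.prime_two).1 this)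
  by_contra hcon
  push Not at hcon
  have e1 := hcon 1 h1
  have e2 := hcon 2 h2
  rw [fam_eval] at e1 e2
  have e3 : (p : ℤ) ∣ 3 * (b : ℤ) ^ 2 := by
    have := dvd_sub e2 e1
    ring_nf at this
    rwa [mul_comm]
  rcases hpZ.dvd_or_dvd e3 with h3 | h3
  · -- `p = 3`
    have hp3 : p = 3 := by
      have : p ∣ 3 := by exact_mod_cast h3
      exact (Nat.prime_dvd_prime_iff_eq hp Nat.prime_three).1 this
    subst hp3
    have hb : (b : ℤ) % 3 = 0 ∨ (b : ℤ) % 3 = 1 ∨ (b : ℤ) % 3 = 2 := by omega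
    have hc : (c : ℤ) % 3 = 0 ∨ (c : ℤ) % 3 = 1 ∨ (c : ℤ) % 3 = 2 := by omega
    have e4 : ((b * 1 : ℤ) ^ 2 + (c : ℤ) ^ 2) % 3 = 0 := Int.emod_eq_zero_of_dvd (by exact_mod_cast e1)
    have key : (b : ℤ) % 3 = 0 ∧ (c : ℤ) % 3 = 0 := by
      rcases hb with hb | hb | hb <;> rcases hc with hc | hc | hc <;>
        simp [pow_two, Int.add_emod, Int.mul_emod, hb, hc] at e4 ⊢
    have h4 : 3 ∣ b := by omega
    have h5 : 3 ∣ c := by omega
    have h6 := Nat.dvd_gcd h4 h5
    rw [hbc] at h6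
    omega
  · have h4 : (p : ℤ) ∣ (b : ℤ) := hpZ.dvd_of_dvd_pow h3
    have h5 : (p : ℤ) ∣ (c : ℤ) ^ 2 := by
      have h6 : (p : ℤ) ∣ (b * 1 : ℤ) ^ 2 := dvd_pow (h4.mul_right 1) two_ne_zero
      exact (Int.dvd_add_right h6).1 e1
    have h7 : (p : ℤ) ∣ (c : ℤ) := hpZ.dvd_of_dvd_pow h5
    have h8 := Nat.dvd_gcd (Int.natCast_dvd_natCast.1 h4) (Int.natCast_dvd_natCast.1 h7)
    rw [hbc] at h8
    exact hp.one_lt.ne' (Nat.dvd_one.1 h8)

theorem fam_bd (b c N A : ℕ) (hN : 3 ≤ N) (hb : b ≤ N ^ A) (hc : c ≤ N ^ A) (x : ℤ)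
    (hx : |x| ≤ 2 * N) : |(fam b c).eval x| ≤ (N : ℤ) ^ (2 * A + 5) := by
  rw [fam_eval]
  have hN' : (3 : ℤ) ≤ N := by exact_mod_cast hN
  have hb' : (b : ℤ) ≤ (N : ℤ) ^ A := by exact_mod_cast hb
  have hc' : (c : ℤ) ≤ (N : ℤ) ^ A := by exact_mod_cast hc
  have h1 : (1 : ℤ) ≤ (N : ℤ) ^ A := one_le_pow₀ (by linarith)
  have hx2 : x ^ 2 ≤ (2 * N) ^ 2 := by
    rw [← sq_abs x]
    gcongr
  have hb2 : (b : ℤ) ^ 2 ≤ ((N : ℤ) ^ A) ^ 2 := by gcongr
  have hc2 : (c : ℤ) ^ 2 ≤ ((N : ℤ) ^ A) ^ 2 := by gcongr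
  rw [abs_of_nonneg (by positivity)]
  calc ((b : ℤ) * x) ^ 2 + (c : ℤ) ^ 2 = (b : ℤ) ^ 2 * x ^ 2 + (c : ℤ) ^ 2 := by ring
    _ ≤ ((N : ℤ) ^ A) ^ 2 * (2 * N) ^ 2 + ((N : ℤ) ^ A) ^ 2 := by gcongr
    _ = ((N : ℤ) ^ A) ^ 2 * (4 * (N : ℤ) ^ 2 + 1) := by ring
    _ ≤ ((N : ℤ) ^ A) ^ 2 * (N : ℤ) ^ 5 := by
        gcongr
        nlinarith [pow_pos (by linarith : (0 : ℤ) < N) 3, pow_pos (by linarith : (0 : ℤ) < N) 2,
          mul_pos (by linarith : (0 : ℤ) < N) (by linarith : (0 : ℤ) < N),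
          mul_nonneg (sub_nonneg.2 hN') (pow_nonneg (by linarith : (0 : ℤ) ≤ N) 4),
          mul_nonneg (sub_nonneg.2 hN') (pow_nonneg (by linarith : (0 : ℤ) ≤ N) 3),
          mul_nonneg (sub_nonneg.2 hN') (pow_nonneg (by linarith : (0 : ℤ) ≤ N) 2)]
    _ = (N : ℤ) ^ (2 * A + 5) := by rw [← pow_mul, ← pow_add]; ring_nf

/-- **Strings of consecutive primes `q` with almost prime `(b q)² + c²`, uniformly in `b` and `c`.** Let `m ≥ 1` and
let `k` be squarefree. There are `K`, `B` and `δ > 0` such that for every `A` there is an `r` such that for every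
finite set `T` of at least `K` nonnegative integers and all large `N` the following holds for ALL coprime
`1 ≤ b, c ≤ N ^ A` with `b + c` odd and all `a` for which `a ((b a)² + c²)` is prime to `k` (for instance `k = 1`):
for at least the proportion `1 / K` of the subsets `H` of `T` with `m` elements there are at least
`N / (log N) ^ B` integers `x`, `N < x`, `x + max H ≤ 2 N`, such that the primes in `[x, x + max H]` are exactly the
numbers `x + h`, `h ∈ H`, all of them are `≡ a` modulo `k`, and all the `(b (x + h))² + c²` have at most `r` prime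
factors, all of them at least `N ^ δ`. -/
theorem result (m : ℕ) (hm : 1 ≤ m) (k : ℕ) (hk : Squarefree k) :
    ∃ (K B : ℕ) (δ : ℝ), 0 < K ∧ 0 < δ ∧ ∀ A : ℕ, ∃ r : ℕ, ∀ T : Finset ℕ, K ≤ T.card →
      ∀ᶠ N : ℕ in atTop, ∀ b c : ℕ, 1 ≤ b → b ≤ N ^ A → 1 ≤ c → c ≤ N ^ A → b.Coprime c →
      Odd (b + c) → ∀ a : ℕ, Nat.Coprime (a * ((b * a) ^ 2 + c ^ 2)) k →
      T.card.choose m ≤ K * {H : Finset ℕ | H ⊆ T ∧ H.card = m ∧
        (N : ℝ) / Real.log N ^ B ≤ (places b c N k a r δ H).ncard}.ncard := by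
  classical
  obtain ⟨K, B, δ, hK, hδ, hmain⟩ := Pool.Agent.U163.SU.uni_prod 1 2 k hk m hm
  refine ⟨K, B, δ, hK, hδ, fun A => ?_⟩
  obtain ⟨r, hr⟩ := hmain (2 * A + 5)
  refine ⟨r, fun T hT => ?_⟩
  filter_upwards [hr T hT, eventually_ge_atTop 3] with N hN hN3
  intro b c hb hbA hc hcA hbc hodd a ha
  refine (hN (fun _ => fam b c) (fun _ => fam_deg b c)
    (fun p hp => by
      obtain ⟨x, hx, hx'⟩ := fam_adm b c hbc hodd p hp
      exact ⟨x, hx, fun _ => hx'⟩)
    (fun _ x hx => fam_bd b c N A hN3 hbA hcA x hx)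
    (fun _ x _ _ => by
      rw [fam_eval]
      have hc' : (1 : ℤ) ≤ c := by exact_mod_cast hc
      positivity)
    a (fun p hp hpk => by
      have hnd : ¬ p ∣ a * ((b * a) ^ 2 + c ^ 2) := by
        intro h
        have h1 := Nat.dvd_gcd h hpk
        rw [ha] at h1
        exact hp.one_lt.ne' (Nat.dvd_one.1 h1)
      refine ⟨fun h => hnd ((Int.natCast_dvd_natCast.1 h).mul_right _), fun _ h => hnd ?_⟩
      rw [fam_eval] at h
      refine Dvd.dvd.mul_left ?_ _
      exact_mod_cast h)).trans (Nat.mul_le_mul_left _ ?_)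
  have heq : ∀ H, Pool.Agent.U163.SU.placesP (fun _ : Fin 1 => fam b c) N k a r δ H ⊆
      places b c N k a r δ H := by
    rintro H x ⟨h1, h2, h3, h4⟩
    refine ⟨h1, h2, h3, fun h hh => ⟨(h4 h hh).1, ?_⟩⟩
    have h5 := ((h4 h hh).2 0).2
    rw [fam_eval] at h5
    have h6 : (((b : ℤ) * ((x + h : ℕ) : ℤ)) ^ 2 + (c : ℤ) ^ 2).natAbs = (b * (x + h)) ^ 2 + c ^ 2 := by
      have : (((b : ℤ) * ((x + h : ℕ) : ℤ)) ^ 2 + (c : ℤ) ^ 2) =
          (((b * (x + h)) ^ 2 + c ^ 2 : ℕ) : ℤ) := by push_cast; ring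
      rw [this, Int.natAbs_natCast]
    rw [h6] at h5
    exact h5
  have hfin : ∀ P : Finset ℕ → Prop, {H : Finset ℕ | H ⊆ T ∧ H.card = m ∧ P H}.Finite := by
    intro P
    apply (T.powersetCard m).finite_toSet.subset
    rintro H ⟨h1, h2, -⟩
    exact Finset.mem_coe.2 (Finset.mem_powersetCard.2 ⟨h1, h2⟩)
  apply Set.ncard_le_ncard _ (hfin _)
  rintro H ⟨h1, h2, h3⟩
  refine ⟨h1, h2, h3.trans (Nat.cast_le.2 (Set.ncard_le_ncard (heq H) ?_))⟩
  refine (Set.finite_Iic (2 * N)).subset fun n hn => ?_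
  have h1 : n + H.sup id ≤ 2 * N := hn.2.1
  rw [Set.mem_Iic]
  omega

end Pool.Agent.Results.MP_4b1228_nt.StringsOfPrimes
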