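import Mathlib
import Pool.Agent.U98.TZ.D1

set_option autoImplicit false

/-!
# The Ankeny-Chowla-Hasse family and the Lang family for almost primes

Call an integer rough at the level `w` if it has no prime factors `p ≤ w`. The first family at the level `w` consists of
the `m = 2 q n`, `q` prime, `n > 1`, for which `m ^ 2 + 1` is rough, the second family of the `m = (2 n + 1) q`, `q`
prime, `n ≥ 1`, for which `m ^ 2 + 4` is rough. All elements of both families are considered, in the order of `m`.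
Their families form a sequence of independent fair coins: for all `l` and `ε` there is `K` such that for all large `w`,
in ALL intervals of length `≥ w ^ K`, the families of `l + 1` consecutive elements are asymptotically independent, with
probabilities `1/2`, and independent of the `l` distances, which have the exponential law with the parameter
`D = ∏ (1 - 2 / p)` over the primes `p ≤ w`, `p ≡ 1 (mod 4)`. The second law gives the residues modulo any even `q`.
-/

namespace Pool.Agent.Results.MP_4b1228_nt.TwoFamilies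

open Finset

/-- `n` has no prime factors `p ≤ w` -/
def Rough (w n : ℕ) : Prop := ∀ p : ℕ, p.Prime → p ≤ w → ¬ p ∣ n

/-- `m = 2 r n` with `r` prime and `n > 1`, and `m ^ 2 + 1` is rough -/
def FamilyA (w m : ℕ) : Prop := Rough w (m ^ 2 + 1) ∧ ∃ r n : ℕ, r.Prime ∧ 1 < n ∧ m = 2 * r * n

/-- `m = (2 n + 1) r` with `r` prime and `n ≥ 1`, and `m ^ 2 + 4` is rough -/
def FamilyB (w m : ℕ) : Prop := Rough w (m ^ 2 + 4) ∧ ∃ r n : ℕ, r.Prime ∧ 1 ≤ n ∧ m = (2 * n + 1) * r

/-- an element of one of the two families -/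
def Either (w m : ℕ) : Prop := FamilyA w m ∨ FamilyB w m

/-- the next element -/
noncomputable def next (w m : ℕ) : ℕ := sInf {n | m < n ∧ Either w n}

/-- the density of both families -/
noncomputable def density (w : ℕ) : ℝ := ∏ p ∈ (Icc 1 w).filter (fun p => p.Prime ∧ p % 4 = 1), (1 - 2 / (p : ℝ))

/-- The number of the elements `m ∈ (Z, Z + Y]` such that `m` and the next `l` elements belong to the families
`σ 0, ..., σ l` (`true` is the first family) and the `l` distances are in `(s j, T j]`. -/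
noncomputable def familyCount (w l : ℕ) (σ : ℕ → Bool) (s T : ℕ → ℕ) (Z Y : ℕ) : ℕ :=
  Set.ncard {m : ℕ | Z < m ∧ m ≤ Z + Y ∧ Either w m ∧ (∀ j ≤ l, (FamilyA w ((next w)^[j] m) ↔ σ j = true)) ∧
    ∀ j < l, s j < (next w)^[j + 1] m - (next w)^[j] m ∧ (next w)^[j + 1] m - (next w)^[j] m ≤ T j}

/-- the possible residues modulo `q`, for even `q` -/
def residues (q : ℕ) : Finset ℕ :=
  (range q).filter (fun b => (b % 2 = 0 ∧ Nat.Coprime (b ^ 2 + 1) q) ∨ (b % 2 = 1 ∧ Nat.Coprime (b ^ 2 + 4) q))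

/-- the density of both families in terms of `q`, for even `q` -/
noncomputable def densityQ (w q : ℕ) : ℝ :=
  (residues q).card / (q : ℝ) *
    ∏ p ∈ (Icc 1 w).filter (fun p => p.Prime ∧ p % 4 = 1 ∧ ¬ p ∣ q), (1 - 2 / (p : ℝ))

/-- The number of the elements `m ∈ (Z, Z + Y]` such that `m` and the next `l` elements are congruent to
`b 0, ..., b l` modulo `q` and the `l` distances are in `(s j, T j]`. -/
noncomputable def residueCount (w q l : ℕ) (b s T : ℕ → ℕ) (Z Y : ℕ) : ℕ :=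
  Set.ncard {m : ℕ | Z < m ∧ m ≤ Z + Y ∧ Either w m ∧ (∀ j ≤ l, (next w)^[j] m % q = b j) ∧
    ∀ j < l, s j < (next w)^[j + 1] m - (next w)^[j] m ∧ (next w)^[j + 1] m - (next w)^[j] m ≤ T j}

open Filter Pool.Agent.U98.TY Pool.Agent.U98.TZ Pool.Agent.H373R2.T7 Pool.Agent.W123.RP Pool.Agent.W123.RU
open Pool.Agent.TH464.PO
open Pool.Agent.R463.PP (GB)

lemma cop_iff (q m : ℕ) : Nat.Coprime m q ↔ ∀ p : ℕ, p.Prime → p ∣ q → ¬ p ∣ m := by
  constructor
  · intro h p hp hpq hd
    have h1 := Nat.dvd_gcd hd hpq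
    rw [Nat.Coprime] at h
    rw [h] at h1
    exact hp.one_lt.ne' (Nat.dvd_one.1 h1)
  · intro h
    rw [Nat.coprime_iff_gcd_eq_one]
    by_contra hcon
    obtain ⟨p, hp, hpd⟩ := Nat.exists_prime_and_dvd hcon
    exact h p hp (hpd.trans (Nat.gcd_dvd_right _ _)) (hpd.trans (Nat.gcd_dvd_left _ _))

lemma mem_residues (q b : ℕ) (h2q : 2 ∣ q) :
    b ∈ residues q ↔ b < q ∧ ∀ p : ℕ, p.Prime → p ∣ q → ¬ p ∣ b ^ 2 + cc b := by
  unfold residues cc
  rw [mem_filter, mem_range]
  apply and_congr_right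
  intro _
  rw [cop_iff, cop_iff]
  rcases Nat.mod_two_eq_zero_or_one b with h | h
  · rw [if_pos h]
    simp [h]
  · rw [if_neg (by omega)]
    simp [h]

lemma residues_sub (q : ℕ) : residues q ⊆ range q := by
  unfold residues
  exact filter_subset _ _

lemma cc_mod (q m : ℕ) (h2q : 2 ∣ q) : cc (m % q) = cc m := by
  unfold cc
  rw [Nat.mod_mod_of_dvd m h2q]

/-- the sifted set -/
lemma gb_iff (q w m : ℕ) (hq : 1 ≤ q) (h2q : 2 ∣ q) (hqw : q ≤ w) :
    GB (GT (QQ q) q w) q (residues q) m ↔ Rough w (m ^ 2 + cc m) := by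
  unfold GB GT Sf QQ Rough
  rw [mem_residues q _ h2q, cc_mod q m h2q]
  constructor
  · rintro ⟨⟨-, h1⟩, h2⟩ p hp hpw
    by_cases hpq : p ∣ q
    · rw [← sq_mod' p q m (cc m) hpq]
      exact h1 p hp hpq
    · intro hd
      exact h2 p (mem_pz.2 ⟨hpw, hp⟩) ⟨hpq, hd⟩
  · intro h1
    refine ⟨⟨Nat.mod_lt _ hq, ?_⟩, ?_⟩
    · intro p hp hpq
      rw [sq_mod' p q m (cc m) hpq]
      exact h1 p hp ((Nat.le_of_dvd hq hpq).trans hqw)
    · rintro p hp ⟨_, hd⟩
      exact h1 p (mem_pz.1 hp).2 (mem_pz.1 hp).1 hd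

lemma B_odd {w m : ℕ} (hw : 2 ≤ w) (h : FamilyB w m) : m % 2 = 1 := by
  by_contra hcon
  have h0 : m % 2 = 0 := by omega
  apply h.1 2 Nat.prime_two hw
  obtain ⟨k, rfl⟩ : ∃ k, m = 2 * k := ⟨m / 2, by omega⟩
  exact ⟨2 * k ^ 2 + 2, by ring⟩

lemma A_even {w m : ℕ} (h : FamilyA w m) : m % 2 = 0 := by
  obtain ⟨_, r, n, _, _, rfl⟩ := h
  rw [mul_assoc]
  omega

lemma either_rough {w m : ℕ} (hw : 2 ≤ w) (h : Either w m) : Rough w (m ^ 2 + cc m) := by
  unfold cc
  rcases h with h | h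
  · rw [if_pos (A_even h)]
    exact h.1
  · rw [if_neg (by have := B_odd hw h; omega)]
    exact h.1

/-- an exceptional element is small or (twice) a prime -/
lemma exc {w m : ℕ} (h : Rough w (m ^ 2 + cc m)) (hn : ¬ Either w m) :
    m ≤ 2 ∨ (m % 2 = 0 ∧ (m / 2).Prime) ∨ (m % 2 = 1 ∧ m.Prime) := by
  by_contra hcon
  push Not at hcon
  obtain ⟨h1, h2, h3⟩ := hcon
  apply hn
  unfold cc at h
  rcases Nat.mod_two_eq_zero_or_one m with h0 | h0
  · left
    rw [if_pos h0] at h
    refine ⟨h, ?_⟩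
    have h4 := h2 h0
    have h5 : (m / 2).minFac.Prime := Nat.minFac_prime (by omega)
    obtain ⟨n, hn⟩ := Nat.minFac_dvd (m / 2)
    refine ⟨(m / 2).minFac, n, h5, ?_, ?_⟩
    · by_contra hcon
      have h6 : n = 0 ∨ n = 1 := by omega
      rcases h6 with h6 | h6
      · rw [h6] at hn
        omega
      · rw [h6, mul_one] at hn
        rw [hn] at h4
        exact h4 h5
    · rw [mul_assoc, ← hn]
      omega
  · right
    rw [if_neg (by omega)] at h
    refine ⟨h, ?_⟩
    have h4 := h3 h0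
    have h5 : m.minFac.Prime := Nat.minFac_prime (by omega)
    obtain ⟨n, hn⟩ := Nat.minFac_dvd m
    have hodd : n % 2 = 1 := by
      by_contra hcon
      have : n % 2 = 0 := by omega
      obtain ⟨k, rfl⟩ : ∃ k, n = 2 * k := ⟨n / 2, by omega⟩
      have : m = 2 * (m.minFac * k) := by
        rw [← mul_assoc, mul_comm 2 m.minFac, mul_assoc]
        exact hn
      omega
    refine ⟨m.minFac, n / 2, h5, ?_, ?_⟩
    · by_contra hcon
      have h6 : n = 1 := by omega
      rw [h6, mul_one] at hn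
      rw [hn] at h4
      exact h4 h5
    · have h6 : 2 * (n / 2) + 1 = n := by omega
      rw [h6, mul_comm]
      exact hn

/-- the condition together with the divisibility of `m` -/
def QX (q i p m : ℕ) : Prop := ¬ p ∣ q ∧ (p ∣ m ^ 2 + cc i ∨ p ∣ m)

lemma per_QX (q i : ℕ) (h2q : 2 ∣ q) : PerB (QX q i) 5 := by
  classical
  constructor
  · intro p n
    unfold QX
    have h : p ∣ n ↔ p ∣ n % p := (Nat.dvd_mod_iff (dvd_refl p)).symm
    rw [sq_mod p n (cc i), h]
  · intro p hp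
    have hsub : (range p).filter (fun r => QX q i p r) ⊆
        (range p).filter (fun r => QQ q i p r) ∪ {0} := by
      intro r hr
      rw [mem_filter, mem_range] at hr
      rw [mem_union, mem_filter, mem_range, mem_singleton]
      rcases hr.2.2 with h3 | h3
      · exact Or.inl ⟨hr.1, hr.2.1, h3⟩
      · exact Or.inr (Nat.eq_zero_of_dvd_of_lt h3 hr.1)
    unfold nuB
    refine (card_le_card hsub).trans ((card_union_le _ _).trans ?_)
    rw [card_singleton]
    have h4 : nuB (QQ q i) p ≤ 4 := by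
      by_cases h : p ∣ q
      · rw [nuB_QQ_dvd q i p h]
        omega
      · rw [nuB_QQ q i p hp h2q h]
        split_ifs <;> omega
    unfold nuB at h4
    exact Nat.add_le_add_right h4 1

lemma nuB_QX (q i p : ℕ) (hp : p.Prime) (h2q : 2 ∣ q) (h : ¬ p ∣ q) : nuB (QQ q i) p + 1 ≤ nuB (QX q i) p := by
  classical
  unfold nuB
  rw [← Finset.card_insert_of_notMem (s := (range p).filter (fun m => QQ q i p m)) (a := 0) (by
    rw [mem_filter]
    rintro ⟨_, _, h1⟩
    have h2 : p ≠ 2 := by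
      rintro rfl
      exact h h2q
    unfold cc at h1
    split_ifs at h1
    · norm_num at h1
      exact hp.one_lt.ne' h1
    · have h3 : p ∣ 2 ^ 2 := by norm_num; simpa using h1
      exact h2 ((Nat.prime_dvd_prime_iff_eq hp Nat.prime_two).1 (hp.dvd_of_dvd_pow h3)))]
  apply card_le_card
  intro x hx
  rw [mem_insert] at hx
  rw [mem_filter]
  rcases hx with rfl | hx
  · exact ⟨mem_range.2 hp.pos, h, Or.inr (dvd_zero p)⟩
  · rw [mem_filter] at hx
    exact ⟨hx.1, hx.2.1, Or.inl hx.2.2⟩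

lemma V_eq (q i w : ℕ) (h2q : 2 ∣ q) : Vq (QQ q i) w = Vq (QQ q 0) w := (ts_QQ q h2q).Vq_eq i w

open Classical in
/-- exceptional elements are rare -/
lemma exc_rare (q : ℕ) (hq : 1 ≤ q) (h2q : 2 ∣ q) (ε : ℝ) (hε : 0 < ε) :
    ∃ K y1 : ℕ, ∀ w : ℕ, y1 ≤ w → ∀ Z Y : ℕ, w ^ K ≤ Y → ∀ F : Finset ℕ, F ⊆ Ioc Z (Z + Y) →
      (∀ m ∈ F, Rough w (m ^ 2 + cc m) ∧ ¬ Either w m) → (F.card : ℝ) ≤ ε * (Vq (QQ q 0) w * Y) := by
  have hper : ∀ i, PerB (QQ q i) 5 := (ts_QQ q h2q).per
  have hadm : ∀ i, ∀ p : ℕ, p.Prime → nuB (QQ q i) p < p := by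
    intro i p hp
    rw [(ts_QQ q h2q).same i p hp]
    exact adm_QQ q h2q p hp
  have hge : ∀ i, ∀ p : ℕ, p.Prime → q < p → nuB (QQ q i) p + 1 ≤ nuB (QX q i) p := by
    intro i p hp hpq
    exact nuB_QX q i p hp h2q (fun hd => by
      have := Nat.le_of_dvd hq hd
      omega)
  obtain ⟨K1, a1, h1⟩ := rare (QQ q 0) (QX q 0) 5 q (by norm_num) (hper 0) (per_QX q 0 h2q) (hadm 0) (hge 0)
    (ε / 3) (by positivity)
  obtain ⟨K2, a2, h2⟩ := rare (QQ q 1) (QX q 1) 5 q (by norm_num) (hper 1) (per_QX q 1 h2q) (hadm 1) (hge 1)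
    (ε / 3) (by positivity)
  obtain ⟨a3, h3⟩ := large_VY (QQ q 0) 5 (hper 0) (hadm 0) (12 / ε) (by positivity)
  refine ⟨K1 + K2 + 2, max (max a1 a2) (max a3 2), ?_⟩
  intro w hw Z Y hY F hF hF2
  have b1 : a1 ≤ w := (le_max_left _ _).trans ((le_max_left _ _).trans hw)
  have b2 : a2 ≤ w := (le_max_right _ _).trans ((le_max_left _ _).trans hw)
  have b3 : a3 ≤ w := (le_max_left _ _).trans ((le_max_right _ _).trans hw)
  have b4 : 2 ≤ w := (le_max_right _ _).trans ((le_max_right _ _).trans hw)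
  have hY1 : w ^ K1 ≤ Y := (Nat.pow_le_pow_right (by omega) (by omega)).trans hY
  have hY2 : w ^ K2 ≤ Y := (Nat.pow_le_pow_right (by omega) (by omega)).trans hY
  have hY3 : w ^ 2 ≤ Y := (Nat.pow_le_pow_right (by omega) (by omega)).trans hY
  obtain ⟨V, hV⟩ : ∃ V, V = Vq (QQ q 0) w := ⟨_, rfl⟩
  have hV0 : 0 < V := by rw [hV]; exact Vq_pos _ (hadm 0) w
  -- small elements
  have c1 : ((F.filter (fun m => m ≤ 2 * w)).card : ℝ) ≤ ε / 3 * (V * Y) := by
    have d1 : (F.filter (fun m => m ≤ 2 * w)).card ≤ 2 * w := by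
      have : F.filter (fun m => m ≤ 2 * w) ⊆ Icc 1 (2 * w) := by
        intro m hm
        rw [mem_filter] at hm
        have h5 := hF hm.1
        rw [mem_Ioc] at h5
        rw [mem_Icc]
        omega
      have h6 := card_le_card this
      rw [Nat.card_Icc] at h6
      omega
    have d2 : ((F.filter (fun m => m ≤ 2 * w)).card : ℝ) ≤ 2 * w := by exact_mod_cast d1
    have d3 := h3 w b3 w (by rw [pow_one])
    rw [← hV] at d3
    have d4 : (w : ℝ) ^ 2 ≤ Y := by exact_mod_cast hY3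
    have hw0 : (0 : ℝ) < w := by exact_mod_cast (by omega : 0 < w)
    rw [div_le_iff₀ hε] at d3
    have d5 : 12 * (w : ℝ) ≤ ε * (V * Y) := by
      calc 12 * (w : ℝ) ≤ V * w * ε * w := mul_le_mul_of_nonneg_right d3 hw0.le
        _ = ε * V * (w : ℝ) ^ 2 := by ring
        _ ≤ ε * V * Y := mul_le_mul_of_nonneg_left d4 (by positivity)
        _ = ε * (V * Y) := by ring
    linarith
  -- even elements
  have c2 : ((F.filter (fun m => 2 * w < m ∧ m % 2 = 0)).card : ℝ) ≤ ε / 3 * (V * Y) := by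
    have d1 := h1 w b1 Z Y hY1 (F.filter (fun m => 2 * w < m ∧ m % 2 = 0)) ((filter_subset _ _).trans hF) (by
      intro m hm
      rw [mem_filter] at hm
      obtain ⟨hm1, hm2, hm3⟩ := hm
      obtain ⟨e1, e2⟩ := hF2 m hm1
      have e3 := exc e1 e2
      have hcc : cc m = cc 0 := by unfold cc; rw [if_pos hm3, if_pos rfl]
      rintro p hp ⟨p1, p2⟩
      have hpp := (mem_pz.1 hp).2
      have hpw := (mem_pz.1 hp).1
      rcases p2 with p2 | p2
      · rw [hcc] at e1
        exact e1 p hpp hpw p2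
      · rcases e3 with e3 | ⟨_, e3⟩ | ⟨e3, _⟩
        · omega
        · have h2 : p ≠ 2 := by
            rintro rfl
            exact p1 h2q
          obtain ⟨k, hk⟩ : ∃ k, m = 2 * k := ⟨m / 2, by omega⟩
          have hk2 : m / 2 = k := by omega
          rw [hk2] at e3
          rw [hk] at p2
          rcases hpp.dvd_mul.1 p2 with h5 | h5
          · exact h2 ((Nat.prime_dvd_prime_iff_eq hpp Nat.prime_two).1 h5)
          · have := (Nat.prime_dvd_prime_iff_eq hpp e3).1 h5
            omega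
        · omega)
    rw [← hV] at d1
    exact d1
  -- odd elements
  have c3 : ((F.filter (fun m => 2 * w < m ∧ m % 2 = 1)).card : ℝ) ≤ ε / 3 * (V * Y) := by
    have d1 := h2 w b2 Z Y hY2 (F.filter (fun m => 2 * w < m ∧ m % 2 = 1)) ((filter_subset _ _).trans hF) (by
      intro m hm
      rw [mem_filter] at hm
      obtain ⟨hm1, hm2, hm3⟩ := hm
      obtain ⟨e1, e2⟩ := hF2 m hm1
      have e3 := exc e1 e2
      have hcc : cc m = cc 1 := by unfold cc; rw [if_neg (by omega), if_neg (by omega)]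
      rintro p hp ⟨p1, p2⟩
      have hpp := (mem_pz.1 hp).2
      have hpw := (mem_pz.1 hp).1
      rcases p2 with p2 | p2
      · rw [hcc] at e1
        exact e1 p hpp hpw p2
      · rcases e3 with e3 | ⟨e3, _⟩ | ⟨_, e3⟩
        · omega
        · omega
        · have := (Nat.prime_dvd_prime_iff_eq hpp e3).1 p2
          omega)
    rw [V_eq q 1 w h2q, ← hV] at d1
    exact d1
  have hcov : F ⊆ (F.filter (fun m => m ≤ 2 * w) ∪ F.filter (fun m => 2 * w < m ∧ m % 2 = 0)) ∪
      F.filter (fun m => 2 * w < m ∧ m % 2 = 1) := by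
    intro m hm
    rw [mem_union, mem_union, mem_filter, mem_filter, mem_filter]
    rcases Nat.lt_or_ge (2 * w) m with h5 | h5
    · rcases Nat.mod_two_eq_zero_or_one m with h6 | h6
      · exact Or.inl (Or.inr ⟨hm, h5, h6⟩)
      · exact Or.inr ⟨hm, h5, h6⟩
    · exact Or.inl (Or.inl ⟨hm, h5⟩)
  have hcard : (F.card : ℝ) ≤ (F.filter (fun m => m ≤ 2 * w)).card +
      (F.filter (fun m => 2 * w < m ∧ m % 2 = 0)).card + (F.filter (fun m => 2 * w < m ∧ m % 2 = 1)).card := by
    have h5 := (card_le_card hcov).trans ((card_union_le _ _).trans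
      (Nat.add_le_add_right (card_union_le _ _) _))
    exact_mod_cast h5
  rw [← hV]
  linarith

lemma Vq_prod (q w : ℕ) (h2q : 2 ∣ q) : Vq (QQ q 0) w =
    ∏ p ∈ (Icc 1 w).filter (fun p => p.Prime ∧ p % 4 = 1 ∧ ¬ p ∣ q), (1 - 2 / (p : ℝ)) := by
  classical
  unfold Vq
  symm
  have h1 : ∏ p ∈ (Icc 1 w).filter (fun p => p.Prime ∧ p % 4 = 1 ∧ ¬ p ∣ q), (1 - 2 / (p : ℝ)) =
      ∏ p ∈ (Icc 1 w).filter (fun p => p.Prime ∧ p % 4 = 1 ∧ ¬ p ∣ q), (1 - (nuB (QQ q 0) p : ℝ) / p) := by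
    apply prod_congr rfl
    intro p hp
    rw [mem_filter] at hp
    rw [nuB_QQ q 0 p hp.2.1 h2q hp.2.2.2, if_pos hp.2.2.1]
    norm_num
  rw [h1]
  apply prod_subset
  · intro p hp
    rw [mem_filter, mem_Icc] at hp
    exact mem_pz.2 ⟨hp.1.2, hp.2.1⟩
  · intro p hp hnot
    obtain ⟨h2, h3⟩ := mem_pz.1 hp
    have h4 : nuB (QQ q 0) p = 0 := by
      by_cases h5 : p ∣ q
      · exact nuB_QQ_dvd q 0 p h5
      · rw [nuB_QQ q 0 p h3 h2q h5, if_neg]
        intro h6
        exact hnot (mem_filter.2 ⟨mem_Icc.2 ⟨h3.one_lt.le, h2⟩, h3, h6, h5⟩)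
    rw [h4, Nat.cast_zero, zero_div, sub_zero]

lemma densityQ_eq (w q : ℕ) (h2q : 2 ∣ q) : densityQ w q = ((residues q).card : ℝ) / q * Vq (QQ q 0) w := by
  unfold densityQ
  rw [Vq_prod q w h2q]

lemma res2 : residues 2 = {0, 1} := by decide

lemma density_eq (w : ℕ) : densityQ w 2 = density w := by
  unfold densityQ density
  rw [res2]
  have h1 : (({0, 1} : Finset ℕ).card : ℝ) = 2 := by
    have : ({0, 1} : Finset ℕ).card = 2 := by decide
    rw [this]
    norm_num
  have h2 : (Icc 1 w).filter (fun p => p.Prime ∧ p % 4 = 1 ∧ ¬ p ∣ 2) =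
      (Icc 1 w).filter (fun p => p.Prime ∧ p % 4 = 1) := by
    ext p
    rw [mem_filter, mem_filter]
    constructor
    · rintro ⟨a, b, c, _⟩
      exact ⟨a, b, c⟩
    · rintro ⟨a, b, c⟩
      refine ⟨a, b, c, ?_⟩
      intro hd
      have := (Nat.prime_dvd_prime_iff_eq b Nat.prime_two).1 hd
      omega
  rw [h1, h2]
  norm_num

/-- the law for sets of residues -/
lemma law_set (q l : ℕ) (hq : 1 ≤ q) (h2q : 2 ∣ q) (hB1 : 1 ≤ (residues q).card) (ε : ℝ) (hε : 0 < ε) :
    ∃ K w₀ : ℕ, ∀ w : ℕ, w₀ ≤ w → ∀ Z Y : ℕ, w ^ K ≤ Y → ∀ (S : ℕ → Finset ℕ) (s T : ℕ → ℕ),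
      (∀ j ≤ l, S j ⊆ residues q) → (∀ j < l, s j ≤ T j) →
      |(cS (Either w) q l S s T Z Y : ℝ) -
        densityQ w q * Y * (∏ j ∈ range (l + 1), ((S j).card : ℝ) / (residues q).card) *
          ∏ j ∈ range l, (Real.exp (-(densityQ w q * s j)) - Real.exp (-(densityQ w q * T j)))| ≤
        ε * (densityQ w q * Y) := by
  obtain ⟨ε1, hε1, K, y1, h⟩ := law_pert l (by norm_num) hq (abs_QQ q hq h2q) (residues q) (residues_sub q) hB1 ε hε
  obtain ⟨K2, y2, h2⟩ := exc_rare q hq h2q ε1 hε1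
  refine ⟨K + K2, max (max y1 y2) (max q 2), ?_⟩
  intro w hw Z Y hY S s T hS hsT
  have b1 : y1 ≤ w := (le_max_left _ _).trans ((le_max_left _ _).trans hw)
  have b2 : y2 ≤ w := (le_max_right _ _).trans ((le_max_left _ _).trans hw)
  have b3 : q ≤ w := (le_max_left _ _).trans ((le_max_right _ _).trans hw)
  have b4 : 2 ≤ w := (le_max_right _ _).trans ((le_max_right _ _).trans hw)
  have hY1 : w ^ K ≤ Y := (Nat.pow_le_pow_right (by omega) (by omega)).trans hY
  have hY2 : w ^ K2 ≤ Y := (Nat.pow_le_pow_right (by omega) (by omega)).trans hY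
  refine h w b1 Z Y hY1 (Either w) ?_ ?_ S s T hS hsT _ _ rfl (densityQ_eq w q h2q)
  · intro m hm
    rw [gb_iff q w m hq h2q b3]
    exact either_rough b4 hm
  · intro F hF hF2
    apply h2 w b2 Z Y hY2 F hF
    intro m hm
    have := hF2 m hm
    rw [gb_iff q w m hq h2q b3] at this
    exact this

/-- the law for the residues -/
lemma law_res (q l : ℕ) (hq : 1 ≤ q) (h2q : 2 ∣ q) (ε : ℝ) (hε : 0 < ε) : ∃ K w₀ : ℕ, ∀ w : ℕ, w₀ ≤ w →
    ∀ Z Y : ℕ, w ^ K ≤ Y → ∀ b s T : ℕ → ℕ, (∀ j ≤ l, b j ∈ residues q) → (∀ j < l, s j ≤ T j) →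
      |(residueCount w q l b s T Z Y : ℝ) - densityQ w q * Y / (residues q).card ^ (l + 1) *
          ∏ j ∈ range l, (Real.exp (-(densityQ w q * s j)) - Real.exp (-(densityQ w q * T j)))| ≤
        ε * (densityQ w q * Y / (residues q).card ^ (l + 1)) := by
  by_cases hB0 : (residues q).card = 0
  · refine ⟨0, 0, ?_⟩
    intro w _ Z Y _ b s T hb
    exfalso
    have := hb 0 (Nat.zero_le _)
    rw [card_eq_zero] at hB0
    rw [hB0] at this
    simp at this
  have hB1 : 1 ≤ (residues q).card := Nat.one_le_iff_ne_zero.2 hB0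
  have hR0 : (0 : ℝ) < (residues q).card := by exact_mod_cast hB1
  obtain ⟨K, y1, h⟩ := law_set q l hq h2q hB1 (ε / ((residues q).card : ℝ) ^ (l + 1)) (by positivity)
  refine ⟨K, y1, ?_⟩
  intro w hw Z Y hY b s T hb hsT
  have hmain := h w hw Z Y hY (fun j => {b j}) s T (fun j hj => by
    rw [singleton_subset_iff]
    exact hb j hj) hsT
  have hcount : residueCount w q l b s T Z Y = cS (Either w) q l (fun j => {b j}) s T Z Y := by
    have := cS_congr (Either w) q l (fun j => {b j}) (fun j m => m % q = b j) s T Z Y (by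
      intro j _ m _
      rw [mem_singleton])
    rw [← this]
    rfl
  have hprod : ∏ j ∈ range (l + 1), ((({b j} : Finset ℕ).card : ℕ) : ℝ) / (residues q).card =
      1 / ((residues q).card : ℝ) ^ (l + 1) := by
    rw [prod_congr rfl (g := fun _ => (1 / ((residues q).card : ℝ))), prod_const, card_range, one_div_pow]
    intro j _
    rw [card_singleton, Nat.cast_one]
  rw [hprod] at hmain
  rw [hcount]
  have e1 : densityQ w q * Y * (1 / ((residues q).card : ℝ) ^ (l + 1)) =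
      densityQ w q * Y / ((residues q).card : ℝ) ^ (l + 1) := by ring
  rw [e1] at hmain
  refine hmain.trans (le_of_eq ?_)
  ring

/-- **The two families.** -/
theorem result :
    -- primes in the two families
    (∀ w p : ℕ, w < p → p.Prime → (∃ r n : ℕ, r.Prime ∧ 1 < n ∧ p = (2 * r * n) ^ 2 + 1) →
      ∃ m : ℕ, p = m ^ 2 + 1 ∧ FamilyA w m) ∧
    (∀ w p : ℕ, w < p → p.Prime → (∃ r n : ℕ, r.Prime ∧ 1 ≤ n ∧ p = ((2 * n + 1) * r) ^ 2 + 4) →
      ∃ m : ℕ, p = m ^ 2 + 4 ∧ FamilyB w m) ∧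
    -- the values are almost primes
    (∀ w s m : ℕ, m ^ 2 + 4 ≤ w ^ s → (FamilyA w m → (m ^ 2 + 1).primeFactorsList.length ≤ s) ∧
      (FamilyB w m → (m ^ 2 + 4).primeFactorsList.length ≤ s)) ∧
    -- the two families exclude each other
    (∀ w m : ℕ, 2 ≤ w → ¬ (FamilyA w m ∧ FamilyB w m)) ∧
    -- the law of the families and the distances
    (∀ l : ℕ, ∀ ε : ℝ, 0 < ε → ∃ K w₀ : ℕ, ∀ w : ℕ, w₀ ≤ w → ∀ Z Y : ℕ, w ^ K ≤ Y →
      ∀ (σ : ℕ → Bool) (s T : ℕ → ℕ), (∀ j < l, s j ≤ T j) →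
        |(familyCount w l σ s T Z Y : ℝ) - density w * Y * (1 / 2) ^ (l + 1) *
            ∏ j ∈ range l, (Real.exp (-(density w * s j)) - Real.exp (-(density w * T j)))| ≤
          ε * (density w * Y)) ∧
    -- the law of the residues and the distances
    (∀ q l : ℕ, 1 ≤ q → 2 ∣ q → ∀ ε : ℝ, 0 < ε → ∃ K w₀ : ℕ, ∀ w : ℕ, w₀ ≤ w →
      ∀ Z Y : ℕ, w ^ K ≤ Y → ∀ b s T : ℕ → ℕ, (∀ j ≤ l, b j ∈ residues q) → (∀ j < l, s j ≤ T j) →
        |(residueCount w q l b s T Z Y : ℝ) - densityQ w q * Y / (residues q).card ^ (l + 1) *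
            ∏ j ∈ range l, (Real.exp (-(densityQ w q * s j)) - Real.exp (-(densityQ w q * T j)))| ≤
          ε * (densityQ w q * Y / (residues q).card ^ (l + 1))) ∧
    (∀ w : ℕ, densityQ w 2 = density w) := by
  refine ⟨?_, ?_, ?_, ?_, ?_, ?_, density_eq⟩
  · rintro w p hwp hp ⟨r, n, hr, hn, rfl⟩
    exact ⟨2 * r * n, rfl, prime_rough w _ hwp hp, r, n, hr, hn, rfl⟩
  · rintro w p hwp hp ⟨r, n, hr, hn, rfl⟩
    exact ⟨(2 * n + 1) * r, rfl, prime_rough w _ hwp hp, r, n, hr, hn, rfl⟩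
  · intro w s m hms
    exact ⟨fun h => few w s _ (by omega) (by omega) h.1, fun h => few w s _ (by omega) (by omega) h.1⟩
  · rintro w m hw ⟨h1, h2⟩
    have := A_even h1
    have := B_odd hw h2
    omega
  · intro l ε hε
    obtain ⟨K, w0, hK⟩ := law_set 2 l (by norm_num) dvd_rfl (by rw [res2]; decide) ε hε
    refine ⟨K, max w0 2, ?_⟩
    intro w hw Z Y hY σ s T hsT
    have hw2 : 2 ≤ w := (le_max_right _ _).trans hw
    obtain ⟨S, hS⟩ : ∃ S : ℕ → Finset ℕ, S = fun j => if σ j = true then {0} else {1} := ⟨_, rfl⟩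
    have hcount : familyCount w l σ s T Z Y = cS (Either w) 2 l S s T Z Y := by
      have := cS_congr (Either w) 2 l S (fun j m => (FamilyA w m ↔ σ j = true)) s T Z Y (by
        intro j _ m hm
        have hA : FamilyA w m ↔ m % 2 = 0 := by
          constructor
          · exact A_even
          · intro h
            rcases hm with h1 | h1
            · exact h1
            · have := B_odd hw2 h1
              omega
        rw [hS]
        simp only
        by_cases hσ : σ j = true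
        · rw [if_pos hσ, mem_singleton, ← hA]
          simp [hσ]
        · rw [if_neg hσ, mem_singleton]
          have : m % 2 = 1 ↔ ¬ FamilyA w m := by
            rw [hA]
            omega
          rw [this]
          simp [hσ])
      rw [← this]
      rfl
    have hmain := hK w ((le_max_left _ _).trans hw) Z Y hY S s T (by
      intro j _
      rw [hS, res2]
      simp only
      split_ifs <;> simp) hsT
    have hc2 : ((residues 2).card : ℝ) = 2 := by
      rw [res2]
      have : ({0, 1} : Finset ℕ).card = 2 := by decide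
      rw [this]
      norm_num
    have hprod : ∏ j ∈ range (l + 1), ((S j).card : ℝ) / (residues 2).card = (1 / 2) ^ (l + 1) := by
      rw [prod_congr rfl (g := fun _ => (1 / 2 : ℝ)), prod_const, card_range]
      intro j _
      rw [hS, hc2]
      simp only
      split_ifs <;> simp
    rw [hprod, density_eq] at hmain
    rw [hcount]
    exact hmain
  · intro q l hq h2q ε hε
    exact law_res q l hq h2q ε hε

end Pool.Agent.Results.MP_4b1228_nt.TwoFamilies
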