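import Pool.Agent.U918.LP.Pairs

/-!
# The families `(2 q n)² + k` and `((2 n + 1) q)² + k` for almost all `k`, with arbitrary weights on the pairs `(q, n)`

The question is about the primes `(2 q n)² + 1`, `q` prime, `n > 1`, and the primes `((2 n + 1) q)² + 4`, `q` prime,
`n ≥ 1`. Let `w` and `v` be ANY bounded real weights on the pairs `(q, n)`, for example indicators of arbitrary sets of
pairs. For all but a share `log ^ (-U) X` of the vectors `(k₁, …, k_r)` of integers `1 ≤ k_i ≤ B X²` the following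
holds for all `y ≤ X`. The sum of `w (q, n)` over the pairs with `q` prime, `n > 1`, `2 q n ≤ y`, for which all the
numbers `(2 q n)² + k_i` are prime is, up to `X / log ^ D X`, the sum of `w (q, n) ∏ 1 / (V z log ((2 q n)² + k_i))`
over the pairs for which all these numbers are free of primes `≤ z`; here `z` is a power of `log X` and
`V z = ∏_{p ≤ z} (1 - 1/p)`. The same holds for the pairs with `q` prime, `n ≥ 1`, `(2 n + 1) q ≤ y`, the numbers
`((2 n + 1) q)² + k_i` and the weight `v`.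
-/

set_option autoImplicit false

open Finset

namespace Pool.Agent.Results.MP_4b1228_nt.WeightsOnFactorisations

/-- the product of `1 - 1/p` over the primes `p ≤ z` -/
noncomputable def V (z : ℕ) : ℝ := ∏ p ∈ (Icc 1 z).filter Nat.Prime, (1 - 1 / (p : ℝ))

/-- the argument in the family of Ankeny, Chowla and Hasse: `2 q n`, `q` prime, `n > 1` -/
def argA (t : ℕ × ℕ) : ℕ := 2 * t.1 * t.2

/-- the argument in the family of Lang: `(2 n + 1) q`, `q` prime, `n ≥ 1` -/
def argB (t : ℕ × ℕ) : ℕ := (2 * t.2 + 1) * t.1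

open Classical in
/-- the pairs `(q, n)` with `q` prime, `n > 1` and `2 q n ≤ y` -/
noncomputable def pairsA (y : ℕ) : Finset (ℕ × ℕ) :=
  ((Icc 1 y) ×ˢ (Icc 1 y)).filter (fun t => (t.1.Prime ∧ 1 < t.2) ∧ argA t ≤ y)

open Classical in
/-- the pairs `(q, n)` with `q` prime, `n ≥ 1` and `(2 n + 1) q ≤ y` -/
noncomputable def pairsB (y : ℕ) : Finset (ℕ × ℕ) :=
  ((Icc 1 y) ×ˢ (Icc 1 y)).filter (fun t => (t.1.Prime ∧ 1 ≤ t.2) ∧ argB t ≤ y)

open Classical in
/-- the sum of `w (q, n)` over the pairs in `T` for which all the numbers `arg(q, n)² + k i` are prime -/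
noncomputable def primeSum {r : ℕ} (T : Finset (ℕ × ℕ)) (arg : ℕ × ℕ → ℕ) (w : ℕ × ℕ → ℝ) (k : Fin r → ℕ) : ℝ :=
  ∑ t ∈ T.filter (fun t => ∀ i, (arg t ^ 2 + k i).Prime), w t

open Classical in
/-- the sum of `w (q, n) / ∏ (V z · log (arg(q, n)² + k i))` over the pairs in `T` for which no prime `p ≤ z` divides
any of the numbers `arg(q, n)² + k i` -/
noncomputable def modelSum {r : ℕ} (T : Finset (ℕ × ℕ)) (arg : ℕ × ℕ → ℕ) (z : ℕ) (w : ℕ × ℕ → ℝ) (k : Fin r → ℕ) : ℝ :=
  ∑ t ∈ T.filter (fun t => ∀ i, ∀ p : ℕ, p.Prime → p ≤ z → ¬ p ∣ arg t ^ 2 + k i),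
    w t * ∏ i, (V z * Real.log ((arg t ^ 2 + k i : ℕ) : ℝ))⁻¹

open Classical in
/-- **The theorem.** For all `r`, `B`, `U`, `D` there is `B₀` such that for every `E`, every large `X`, every integer
`z` with `log ^ B₀ X ≤ z ≤ log ^ E X` and ALL weights `w`, `v` bounded by `1`: for all but at most
`X ^ (2 r) / log ^ U X` of the vectors `k` of integers `1 ≤ k i ≤ B X²`, one has for all `y ≤ X` that `primeSum` and
`modelSum` differ by at most `X / log ^ D X`, both for `pairsA y` with the weight `w` and for `pairsB y` with the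
weight `v`. -/
theorem result (r B U D : ℕ) :
    ∃ B₀ : ℕ, ∀ E : ℕ, ∃ X₀ : ℕ, ∀ X : ℕ, X₀ ≤ X → ∀ z : ℕ, Real.log X ^ B₀ ≤ z → (z : ℝ) ≤ Real.log X ^ E →
    ∀ w v : ℕ × ℕ → ℝ, (∀ t, |w t| ≤ 1) → (∀ t, |v t| ≤ 1) →
    (((Fintype.piFinset (fun _ : Fin r => Icc 1 (B * X ^ 2))).filter (fun k =>
      ∃ y ≤ X,
        (X : ℝ) / Real.log X ^ D < |primeSum (pairsA y) argA w k - modelSum (pairsA y) argA z w k| ∨
        (X : ℝ) / Real.log X ^ D < |primeSum (pairsB y) argB v k - modelSum (pairsB y) argB z v k|)).card : ℝ) ≤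
      (X : ℝ) ^ (2 * r) / Real.log X ^ U := by
  have hdeg : (Polynomial.X ^ 2 : Polynomial ℤ).natDegree = 2 := Polynomial.natDegree_X_pow 2
  obtain ⟨Ba, ha⟩ := Pool.Agent.U918.LP.pairs r (fun _ => (Polynomial.X ^ 2 : Polynomial ℤ))
    (fun _ => by rw [hdeg]; norm_num) (fun _ => by rw [Polynomial.leadingCoeff_X_pow]; norm_num)
    (fun _ m => m ^ 2) (fun _ m => by simp) (fun _ u v huv => Nat.pow_le_pow_left huv 2)
    (fun t => t.1.Prime ∧ 1 < t.2) argA
    (fun t ht => by
      have h1 := ht.1.one_le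
      have h2 : t.1 * 1 ≤ t.1 * t.2 := Nat.mul_le_mul_left _ ht.2.le
      have h3 : 1 * t.2 ≤ t.1 * t.2 := Nat.mul_le_mul_right _ h1
      have e : argA t = 2 * (t.1 * t.2) := by unfold argA; ring
      exact ⟨h1, ht.2.le, by omega, by omega⟩)
    (fun t ht => ⟨ht.1, by unfold argA; exact Dvd.dvd.mul_right (Dvd.intro_left 2 rfl) t.2, by
      unfold argA
      exact Nat.mul_pos (Nat.mul_pos (by norm_num) ht.1.pos) (by have := ht.2; omega)⟩)
    (fun t t' ht ht' h1 h2 => by
      unfold argA at h1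
      rw [h2] at h1
      have h3 := Nat.eq_of_mul_eq_mul_left (show 0 < 2 * t'.1 by have := ht'.1.pos; omega) h1
      exact Prod.ext h2 h3)
    B (U + 1) D
  obtain ⟨Bb, hb⟩ := Pool.Agent.U918.LP.pairs r (fun _ => (Polynomial.X ^ 2 : Polynomial ℤ))
    (fun _ => by rw [hdeg]; norm_num) (fun _ => by rw [Polynomial.leadingCoeff_X_pow]; norm_num)
    (fun _ m => m ^ 2) (fun _ m => by simp) (fun _ u v huv => Nat.pow_le_pow_left huv 2)
    (fun t => t.1.Prime ∧ 1 ≤ t.2) argB
    (fun t ht => by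
      have h1 := ht.1.one_le
      have h2 : 1 * t.1 ≤ (2 * t.2 + 1) * t.1 := Nat.mul_le_mul_right _ (by omega)
      have h3 : (2 * t.2 + 1) * 1 ≤ (2 * t.2 + 1) * t.1 := Nat.mul_le_mul_left _ h1
      unfold argB
      exact ⟨h1, ht.2, by omega, by omega⟩)
    (fun t ht => ⟨ht.1, by unfold argB; exact Dvd.intro_left _ rfl, by
      unfold argB
      exact Nat.mul_pos (by omega) ht.1.pos⟩)
    (fun t t' ht ht' h1 h2 => by
      unfold argB at h1
      rw [h2] at h1
      have h3 := Nat.eq_of_mul_eq_mul_right ht'.1.pos h1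
      exact Prod.ext h2 (by omega))
    B (U + 1) D
  refine ⟨max Ba Bb, fun E => ?_⟩
  obtain ⟨xa, hxa⟩ := ha E
  obtain ⟨xb, hxb⟩ := hb E
  obtain ⟨x3, hx3⟩ := Pool.Agent.H373R2.T7.ev_L' 2
  refine ⟨max xa (max xb (max x3 1)), fun X hX z hz1 hz2 w v hw hv => ?_⟩
  have b1 : xa ≤ X := (le_max_left _ _).trans hX
  have b2 : xb ≤ X := ((le_max_left _ _).trans (le_max_right _ _)).trans hX
  have b3 : x3 ≤ X := (((le_max_left _ _).trans (le_max_right _ _)).trans (le_max_right _ _)).trans hX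
  have hL := hx3 X b3
  have hL1 : 1 ≤ Real.log X := by linarith
  have ka := hxa X b1 z ((pow_le_pow_right₀ hL1 (le_max_left _ _)).trans hz1) hz2 w hw
  have kb := hxb X b2 z ((pow_le_pow_right₀ hL1 (le_max_right _ _)).trans hz1) hz2 v hv
  rw [prod_const, card_univ, Fintype.card_fin, hdeg, ← pow_mul] at ka kb
  have hsub : ((Fintype.piFinset (fun _ : Fin r => Icc 1 (B * X ^ 2))).filter (fun k =>
      ∃ y ≤ X,
        (X : ℝ) / Real.log X ^ D < |primeSum (pairsA y) argA w k - modelSum (pairsA y) argA z w k| ∨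
        (X : ℝ) / Real.log X ^ D < |primeSum (pairsB y) argB v k - modelSum (pairsB y) argB z v k|)) ⊆
      ((Fintype.piFinset (fun _ : Fin r => Icc 1 (B * X ^ 2))).filter (fun k =>
        ∃ y ≤ X, (X : ℝ) / Real.log X ^ D < |primeSum (pairsA y) argA w k - modelSum (pairsA y) argA z w k|)) ∪
      ((Fintype.piFinset (fun _ : Fin r => Icc 1 (B * X ^ 2))).filter (fun k =>
        ∃ y ≤ X, (X : ℝ) / Real.log X ^ D < |primeSum (pairsB y) argB v k - modelSum (pairsB y) argB z v k|)) := by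
    intro k hk
    rw [mem_filter] at hk
    obtain ⟨h1, y, hy, h2 | h2⟩ := hk
    · exact mem_union_left _ (mem_filter.2 ⟨h1, y, hy, h2⟩)
    · exact mem_union_right _ (mem_filter.2 ⟨h1, y, hy, h2⟩)
  have hc := (card_le_card hsub).trans (card_union_le _ _)
  have hc' : (((Fintype.piFinset (fun _ : Fin r => Icc 1 (B * X ^ 2))).filter (fun k =>
      ∃ y ≤ X,
        (X : ℝ) / Real.log X ^ D < |primeSum (pairsA y) argA w k - modelSum (pairsA y) argA z w k| ∨
        (X : ℝ) / Real.log X ^ D < |primeSum (pairsB y) argB v k - modelSum (pairsB y) argB z v k|)).card : ℝ) ≤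
      (((Fintype.piFinset (fun _ : Fin r => Icc 1 (B * X ^ 2))).filter (fun k =>
        ∃ y ≤ X, (X : ℝ) / Real.log X ^ D < |primeSum (pairsA y) argA w k - modelSum (pairsA y) argA z w k|)).card : ℝ) +
      (((Fintype.piFinset (fun _ : Fin r => Icc 1 (B * X ^ 2))).filter (fun k =>
        ∃ y ≤ X, (X : ℝ) / Real.log X ^ D < |primeSum (pairsB y) argB v k - modelSum (pairsB y) argB z v k|)).card : ℝ) := by
    exact_mod_cast hc
  have eA : ∀ (k : Fin r → ℕ) (y : ℕ), primeSum (pairsA y) argA w k =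
      Pool.Agent.U918.LP.PSp (fun _ m => m ^ 2) (fun t => t.1.Prime ∧ 1 < t.2) argA w k y := by
    intro k y
    unfold primeSum pairsA Pool.Agent.U918.LP.PSp Pool.Agent.U918.LP.fam
    congr
  have mA : ∀ (k : Fin r → ℕ) (y : ℕ), modelSum (pairsA y) argA z w k =
      Pool.Agent.U918.LP.MSp (fun _ m => m ^ 2) (fun t => t.1.Prime ∧ 1 < t.2) argA z w k y := by
    intro k y
    unfold modelSum pairsA Pool.Agent.U918.LP.MSp Pool.Agent.U918.LP.fam
    congr
  have eB : ∀ (k : Fin r → ℕ) (y : ℕ), primeSum (pairsB y) argB v k =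
      Pool.Agent.U918.LP.PSp (fun _ m => m ^ 2) (fun t => t.1.Prime ∧ 1 ≤ t.2) argB v k y := by
    intro k y
    unfold primeSum pairsB Pool.Agent.U918.LP.PSp Pool.Agent.U918.LP.fam
    congr
  have mB : ∀ (k : Fin r → ℕ) (y : ℕ), modelSum (pairsB y) argB z v k =
      Pool.Agent.U918.LP.MSp (fun _ m => m ^ 2) (fun t => t.1.Prime ∧ 1 ≤ t.2) argB z v k y := by
    intro k y
    unfold modelSum pairsB Pool.Agent.U918.LP.MSp Pool.Agent.U918.LP.fam
    congr
  simp only [← eA, ← mA] at ka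
  simp only [← eB, ← mB] at kb
  refine hc'.trans ((add_le_add ka kb).trans ?_)
  have h0 : (0 : ℝ) ≤ (X : ℝ) ^ (2 * r) / Real.log X ^ (U + 1) := by positivity
  have e : (X : ℝ) ^ (2 * r) / Real.log X ^ U = (X : ℝ) ^ (2 * r) / Real.log X ^ (U + 1) * Real.log X := by
    rw [pow_succ]
    field_simp
  rw [e, ← mul_two]
  exact mul_le_mul_of_nonneg_left hL h0

end Pool.Agent.Results.MP_4b1228_nt.WeightsOnFactorisations
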